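import Mathlib
import Pool.Agent.Y996.TK.Parity
import Pool.Agent.Results.MP_f54a22_an.AllCardinalities

/-!
# Cardinalities of the level sets of the Takagi function: all occur, and their law modulo 4

`T x = ∑' n, phi (2 ^ n * x) / 2 ^ n` is the Takagi function, where `phi x = |x - round x|` is the
distance to the nearest integer (`Pool.Agent.H316R3.Tak.Basic`).
-/

set_option autoImplicit false

open MeasureTheory Set Filter Topology

namespace Pool.Agent.Results.MP_f54a22_an.ParityLaw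

open Pool.Agent.H316R3.Tak

/-- The level set `L(y) = {x ∈ [0,1] : T(x) = y}` of the Takagi function. -/
def L (y : ℝ) : Set ℝ := {x | x ∈ Icc (0 : ℝ) 1 ∧ T x = y}

/-- `S n` is the set `S_{2n} = {y ∈ [0,2/3] : |L(y)| = 2n}`. -/
def S (n : ℕ) : Set ℝ := {y | y ∈ Icc (0 : ℝ) (2 / 3) ∧ (L y).encard = 2 * n}

lemma T_half : T (1 / 2) = 1 / 2 := by
  have h := T_left (x := 1 / 2) (by norm_num) le_rfl
  rw [show (2 : ℝ) * (1 / 2) = 1 by norm_num, T_one] at h
  rw [h]; norm_num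

/-- the left half of a level set -/
def A (y : ℝ) : Set ℝ := {x | x ∈ Ioo (0 : ℝ) (1 / 2) ∧ T x - y = 0}

lemma L_eq {y : ℝ} (hy0 : y ≠ 0) (hy : y ≠ 1 / 2) : L y = A y ∪ (fun x => 1 - x) '' A y := by
  ext x
  constructor
  · rintro ⟨⟨h0, h1⟩, hT⟩
    rcases lt_trichotomy x (1 / 2) with h | h | h
    · left
      refine ⟨⟨lt_of_le_of_ne h0 ?_, h⟩, by linarith⟩
      rintro rfl
      rw [T_zero] at hT
      exact hy0 hT.symm
    · rw [h, T_half] at hT
      exact absurd hT.symm hy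
    · right
      refine ⟨1 - x, ⟨⟨?_, by linarith⟩, by rw [T_symm]; linarith⟩, by ring⟩
      have h2 : x ≠ 1 := by
        rintro rfl
        rw [T_one] at hT
        exact hy0 hT.symm
      have := lt_of_le_of_ne h1 h2
      linarith
  · rintro (⟨⟨h0, h1⟩, hT⟩ | ⟨z, ⟨⟨h0, h1⟩, hT⟩, rfl⟩)
    · exact ⟨⟨h0.le, by linarith⟩, by linarith⟩
    · refine ⟨⟨by simp only; linarith, by simp only; linarith⟩, ?_⟩
      simp only
      rw [T_symm]; linarith

lemma encard_L {y : ℝ} (hy0 : y ≠ 0) (hy : y ≠ 1 / 2) : (L y).encard = 2 * (A y).encard := by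
  have hd : Disjoint (A y) ((fun x => 1 - x) '' A y) := by
    rw [Set.disjoint_left]
    rintro x ⟨⟨_, h1⟩, _⟩ ⟨z, ⟨⟨_, h2⟩, _⟩, h3⟩
    simp only at h3
    linarith
  have hi : Function.Injective (fun x : ℝ => 1 - x) := fun a b h => by
    simp only at h; linarith
  rw [L_eq hy0 hy, encard_union_eq hd, hi.encard_image, two_mul]

/-- the exceptional levels -/
def E : Set ℝ := {y | ∃ x, (IsLocalMax T x ∨ IsLocalMin T x) ∧ T x = y} ∪ {0, 1 / 2}

lemma E_countable : E.Countable :=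
  (Pool.Agent.Y996.TK.countable_extr T).union (by simp)

lemma parity_A {y : ℝ} (hy0 : 0 ≤ y) (hE : y ∉ E) {n : ℕ} (h : (A y).encard = n) :
    Even n ↔ 1 / 2 < y := by
  have hy1 : y ≠ 0 := fun h => hE (Or.inr (by simp [h]))
  have hy2 : y ≠ 1 / 2 := fun h => hE (Or.inr (by simp [h]))
  have hyp : 0 < y := lt_of_le_of_ne hy0 (Ne.symm hy1)
  have hc : Continuous fun x => T x - y := T_cont.sub continuous_const
  have h1 := Pool.Agent.Y996.TK.parity hc (b := 1 / 2)
    (by simp only [T_half]; intro h; apply hy2; linarith) n 0 (by norm_num)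
    (by simp only [T_zero]; intro h; apply hy1; linarith) (A y) rfl h (by
      intro z hz
      constructor
      · intro h2
        apply hE
        refine Or.inl ⟨z, Or.inl ?_, by have := hz.2; linarith⟩
        filter_upwards [h2] with x hx
        linarith
      · intro h2
        apply hE
        refine Or.inl ⟨z, Or.inr ?_, by have := hz.2; linarith⟩
        filter_upwards [h2] with x hx
        linarith)
  rw [h1]
  simp only [T_half, T_zero]
  constructor
  · intro h2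
    by_contra h3
    have h4 : y < 1 / 2 := lt_of_le_of_ne (not_lt.1 h3) hy2
    have := h2.2 (by linarith)
    linarith
  · intro h2
    exact ⟨fun h3 => by linarith, fun h3 => by linarith⟩

lemma half_card {a : ℕ∞} {n : ℕ} (h : 2 * a = 2 * (n : ℕ∞)) : a = n := by
  cases a with
  | top =>
    exfalso
    rw [ENat.mul_top (by norm_num)] at h
    exact absurd h (by exact_mod_cast (ENat.natCast_ne_top (2 * n)).symm)
  | coe m =>
    have h2 : 2 * m = 2 * n := by exact_mod_cast h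
    have : m = n := by omega
    rw [this]

lemma mem_S_parity {y : ℝ} {n : ℕ} (hS : y ∈ S n) (hE : y ∉ E) : Even n ↔ 1 / 2 < y := by
  have hy1 : y ≠ 0 := fun h => hE (Or.inr (by simp [h]))
  have hy2 : y ≠ 1 / 2 := fun h => hE (Or.inr (by simp [h]))
  obtain ⟨⟨h0, _⟩, h2⟩ := hS
  rw [encard_L hy1 hy2] at h2
  exact parity_A h0 hE (half_card h2)

lemma exists_S {y : ℝ} (hy : y ∈ Icc (0 : ℝ) (2 / 3)) (hE : y ∉ E) (hf : (L y).Finite) :
    ∃ n, y ∈ S n := by
  have hy1 : y ≠ 0 := fun h => hE (Or.inr (by simp [h]))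
  have hy2 : y ≠ 1 / 2 := fun h => hE (Or.inr (by simp [h]))
  have h1 := encard_L hy1 hy2
  have hfA : (A y).Finite := by
    refine hf.subset ?_
    rw [L_eq hy1 hy2]
    exact subset_union_left
  obtain ⟨n, hn⟩ := ENat.ne_top_iff_exists.1 (encard_ne_top_iff.2 hfA)
  refine ⟨n, hy, ?_⟩
  rw [h1, ← hn]

lemma down_chain (D : ℕ) : ∀ w : ℝ, 1 / 3 < w → w < 1 →
    N ((D : ℝ) + 1) ((D : ℝ) + 1 + (w - 1) / 2 ^ D) = N 1 w := by
  induction D with
  | zero =>
    intro w _ _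
    simp
  | succ D ih =>
    intro w h1 h2
    have hp : (1 : ℝ) ≤ 2 ^ D := one_le_pow₀ (by norm_num)
    have hD : (0 : ℝ) ≤ D := Nat.cast_nonneg D
    have hx : (2 : ℝ) / 3 / 2 ^ D ≤ 2 / 3 := div_le_self (by norm_num) hp
    have e1 : (w - 1) / 2 ^ (D + 1) = (w - 1) / 2 ^ D / 2 := by rw [pow_succ]; field_simp
    have e2 : (1 : ℝ) / 6 / 2 ^ (D + 2) = 2 / 3 / 2 ^ D / 16 := by
      rw [pow_add]; field_simp; norm_num
    have e3 : -(2 / 3 / 2 ^ D) < (w - 1) / 2 ^ D := by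
      rw [← neg_div, div_lt_div_iff_of_pos_right (by positivity)]
      linarith
    have h := (N_down (k := D + 2) (v := ((D : ℝ) + 2) + (w - 1) / 2 ^ (D + 1)) (by
      push_cast
      rw [e2, e1]
      linarith)).2
    have e4 : 2 * (((D : ℝ) + 2) + (w - 1) / 2 ^ (D + 1)) - ((D + 2 : ℕ) : ℝ) - 1 =
        (D : ℝ) + 1 + (w - 1) / 2 ^ D := by
      rw [e1]; push_cast; ring
    have e5 : ((D + 2 : ℕ) : ℝ) - 1 = (D : ℝ) + 1 := by push_cast; ring
    rw [e4, e5, ih w h1 h2] at h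
    rw [← h]
    push_cast
    congr 1 <;> ring

lemma climb_chain (D : ℕ) {w : ℝ} (h1 : 1 / 3 < w) (h2 : w < 1) :
    N 1 (((D : ℝ) + 1 + (w - 1) / 2 ^ D) / 2 ^ D) = N 1 w := by
  have hpD : (0 : ℝ) < 2 ^ D := by positivity
  have hneg : (w - 1) / 2 ^ D < 0 := div_neg_of_neg_of_pos (by linarith) hpD
  have h := N_climb 1 le_rfl D (((D : ℝ) + 1 + (w - 1) / 2 ^ D) / 2 ^ D) (by
    intro i hi
    obtain ⟨j, hj⟩ : ∃ j, D = i + (j + 1) := ⟨D - i - 1, by omega⟩
    have hj1 : j + 1 ≤ 2 ^ j := Nat.lt_two_pow_self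
    have hj2 : ((j : ℝ) + 1) ≤ 2 ^ j := by exact_mod_cast hj1
    have hi0 : (0 : ℝ) ≤ i := Nat.cast_nonneg i
    have hj0 : (0 : ℝ) ≤ j := Nat.cast_nonneg j
    have hDr : (D : ℝ) = i + (j + 1) := by exact_mod_cast hj
    have e : (2 : ℝ) ^ D = 2 ^ i * (2 ^ j * 2) := by rw [hj, pow_add, pow_succ]
    have hi1 : (0 : ℝ) < 2 ^ i := by positivity
    have hj3 : (0 : ℝ) < 2 ^ j := by positivity
    have e2 : (2 : ℝ) ^ i * (((D : ℝ) + 1 + (w - 1) / 2 ^ D) / 2 ^ D) =
        ((D : ℝ) + 1 + (w - 1) / 2 ^ D) / (2 ^ j * 2) := by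
      generalize (w - 1) / 2 ^ D = q
      rw [e]; field_simp
    rw [e2, div_lt_div_iff₀ (by positivity) (by norm_num)]
    have h5 : ((i : ℝ) + (j + 1) + 1) ≤ 2 ^ j * (i + 2) := by nlinarith
    push_cast
    nlinarith)
  have e3 : (2 : ℝ) ^ D * (((D : ℝ) + 1 + (w - 1) / 2 ^ D) / 2 ^ D) =
      (D : ℝ) + 1 + (w - 1) / 2 ^ D := by
    generalize (w - 1) / 2 ^ D = q
    field_simp
  rw [e3] at h
  have h3 := down_chain D w h1 h2
  push_cast at h
  rw [h, add_comm (1 : ℝ) (D : ℝ), h3]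

lemma encard_L_eq {y : ℝ} (hy : y ≠ 1 / 2) : (L y).encard = 2 * N 1 (2 * y) := by
  have h5 : L y = Sol 0 y := by
    ext x
    simp [L, Sol]
  rw [h5]
  exact N_zero hy

lemma pos_below {n : ℕ} (hn : Odd n) : 0 < volume {w : ℝ | w ∈ Ioo (1 / 3 : ℝ) 1 ∧ N 1 w = n} := by
  have h0 := AllCardinalities.all n hn.pos
  rw [pos_iff_ne_zero] at h0 ⊢
  intro hB
  apply h0
  have hcE : ((fun y : ℝ => 2 * y) '' E).Countable := E_countable.image _
  refine measure_mono_null ?_ (measure_union_null hB (hcE.measure_zero volume))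
  rintro w ⟨⟨h1, h2⟩, h3⟩
  by_cases hw : w < 1
  · exact Or.inl ⟨⟨h1, hw⟩, h3⟩
  · right
    refine ⟨w / 2, ?_, by simp only; ring⟩
    by_contra hE
    have hy2 : w / 2 ≠ 1 / 2 := fun h => hE (Or.inr (by simp [h]))
    have hS : w / 2 ∈ S n := by
      refine ⟨⟨by linarith, by linarith⟩, ?_⟩
      rw [encard_L_eq hy2, show 2 * (w / 2) = w by ring, h3]
    have h4 := mem_S_parity hS hE
    have h5 : 1 / 2 < w / 2 := lt_of_le_of_ne (by linarith [not_lt.1 hw]) (Ne.symm hy2)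
    exact (Nat.not_even_iff_odd.2 hn) (h4.2 h5)

/-- for odd `n` the set `S_{2n}` has positive measure near `0` -/
lemma near_zero {n : ℕ} (hn : Odd n) {ε : ℝ} (hε : 0 < ε) : 0 < volume (S n ∩ Ioo 0 ε) := by
  obtain ⟨D, hD1, hD⟩ : ∃ D : ℕ, 1 ≤ D ∧ ((D : ℝ) + 1) / 2 ^ D < ε := by
    have h1 : Tendsto (fun D : ℕ => (D : ℝ) * (1 / 2 : ℝ) ^ D + (1 / 2 : ℝ) ^ D) atTop
        (𝓝 (0 + 0)) :=
      (tendsto_self_mul_const_pow_of_lt_one (by norm_num) (by norm_num)).add
        (tendsto_pow_atTop_nhds_zero_of_lt_one (by norm_num) (by norm_num))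
    rw [add_zero] at h1
    obtain ⟨D, hD1, hD⟩ := ((eventually_ge_atTop 1).and (h1.eventually (gt_mem_nhds hε))).exists
    refine ⟨D, hD1, ?_⟩
    have e : ((D : ℝ) + 1) / 2 ^ D = (D : ℝ) * (1 / 2 : ℝ) ^ D + (1 / 2 : ℝ) ^ D := by
      rw [one_div, inv_pow]; field_simp
    rw [e]; exact hD
  have hpD : (0 : ℝ) < 2 ^ D := by positivity
  refine AllCardinalities.pos_of_affine (a := 1 / 2 / 2 ^ D / 2 ^ D)
    (b := ((D : ℝ) + 1 - 1 / 2 ^ D) / 2 ^ D / 2) (by positivity) ?_ (pos_below hn)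
  rintro w ⟨⟨h1, h2⟩, h3⟩ _
  have e : 1 / 2 / 2 ^ D / 2 ^ D * w + ((D : ℝ) + 1 - 1 / 2 ^ D) / 2 ^ D / 2 =
      (((D : ℝ) + 1 + (w - 1) / 2 ^ D) / 2 ^ D) / 2 := by
    field_simp; ring
  rw [e]
  set s : ℝ := ((D : ℝ) + 1 + (w - 1) / 2 ^ D) / 2 ^ D with hs
  have hneg : (w - 1) / 2 ^ D < 0 := div_neg_of_neg_of_pos (by linarith) hpD
  have hp1 : (1 : ℝ) ≤ 2 ^ D := one_le_pow₀ (by norm_num)
  have hgt : -1 < (w - 1) / 2 ^ D := by
    rw [lt_div_iff₀ hpD]; nlinarith
  have hD0 : (0 : ℝ) ≤ D := Nat.cast_nonneg D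
  have hs0 : 0 < s := div_pos (by linarith) hpD
  have hs1 : s < ((D : ℝ) + 1) / 2 ^ D := by
    rw [hs, div_lt_div_iff_of_pos_right hpD]; linarith
  have hs2 : s < 1 := by
    refine hs1.trans_le ?_
    rw [div_le_one hpD]
    have : D < 2 ^ D := Nat.lt_two_pow_self
    exact_mod_cast this
  have hc : N 1 s = n := by rw [hs, climb_chain D h1 h2, h3]
  refine ⟨⟨⟨by linarith, by linarith⟩, ?_⟩, by linarith, by linarith⟩
  rw [encard_L_eq (by intro h; linarith), show 2 * (s / 2) = s by ring, hc]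

/-- (1) For every `n ≥ 1` the set `S_{2n}` has positive Lebesgue measure.
(2) The law modulo 4: for odd `n` the set `S_{2n}` lies in `[0,1/2)` up to a countable set, and for
even `n` it lies in `(1/2,2/3]` up to a countable set.
(3) So the union of the `S_{2n}` with `n` odd has the same measure as the set of all levels in
`[0,1/2]` with a finite level set, and the union of the `S_{2n}` with `n` even has the same measure
as the set of all levels in `[1/2,2/3]` with a finite level set.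
(4) If almost every level set is finite (which is known), these measures are `1/2` and `1/6`: for a
uniformly chosen level `y ∈ [0,2/3]`, `|L(y)| ≡ 2 (mod 4)` has probability `3/4` and
`|L(y)| ≡ 0 (mod 4)` has probability `1/4`.
(5) For odd `n` the set `S_{2n}` has positive measure in every interval `(0, ε)`. -/
theorem result :
    (∀ n : ℕ, 1 ≤ n → 0 < volume (S n)) ∧
    (∀ n : ℕ, (Odd n → (S n \ Ico 0 (1 / 2)).Countable) ∧
      (Even n → (S n \ Ioc (1 / 2) (2 / 3)).Countable)) ∧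
    (volume (⋃ n ∈ {n : ℕ | Odd n}, S n) = volume {y | y ∈ Icc (0 : ℝ) (1 / 2) ∧ (L y).Finite} ∧
      volume (⋃ n ∈ {n : ℕ | Even n}, S n) =
        volume {y | y ∈ Icc (1 / 2 : ℝ) (2 / 3) ∧ (L y).Finite}) ∧
    (volume {y | y ∈ Icc (0 : ℝ) (2 / 3) ∧ ¬ (L y).Finite} = 0 →
      volume (⋃ n ∈ {n : ℕ | Odd n}, S n) = ENNReal.ofReal (1 / 2) ∧
      volume (⋃ n ∈ {n : ℕ | Even n}, S n) = ENNReal.ofReal (1 / 6)) ∧
    (∀ n : ℕ, Odd n → ∀ ε : ℝ, 0 < ε → 0 < volume (S n ∩ Ioo 0 ε)) := by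
  have hSE : ∀ n : ℕ, ∀ y ∈ S n, y ∉ E → (Odd n → y < 1 / 2) ∧ (Even n → 1 / 2 < y) := by
    intro n y hy hE
    have h1 := mem_S_parity hy hE
    have hy2 : y ≠ 1 / 2 := fun h => hE (Or.inr (by simp [h]))
    refine ⟨fun ho => ?_, fun he => h1.1 he⟩
    rw [← Nat.not_even_iff_odd, h1, not_lt] at ho
    exact lt_of_le_of_ne ho hy2
  have hE0 : volume E = 0 := E_countable.measure_zero _
  have hfinS : ∀ n : ℕ, ∀ y ∈ S n, (L y).Finite := by
    intro n y hy
    refine finite_of_encard_eq_coe (k := 2 * n) ?_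
    rw [hy.2]; push_cast; rfl
  -- two sets which agree off `E`
  have hae : ∀ P Q : Set ℝ, (∀ y, y ∉ E → (y ∈ P ↔ y ∈ Q)) → volume P = volume Q := by
    intro P Q h
    apply measure_congr
    have h2 : ∀ᵐ y : ℝ, y ∉ E := measure_eq_zero_iff_ae_notMem.1 hE0
    filter_upwards [h2] with y hy
    exact propext (h y hy)
  have hodd : volume (⋃ n ∈ {n : ℕ | Odd n}, S n) =
      volume {y | y ∈ Icc (0 : ℝ) (1 / 2) ∧ (L y).Finite} := by
    apply hae
    intro y hE
    constructor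
    · intro hy
      simp only [mem_iUnion] at hy
      obtain ⟨n, hn, hy⟩ := hy
      exact ⟨⟨hy.1.1, ((hSE n y hy hE).1 hn).le⟩, hfinS n y hy⟩
    · rintro ⟨⟨h0, h1⟩, hf⟩
      obtain ⟨n, hn⟩ := exists_S (y := y) ⟨h0, by linarith⟩ hE hf
      simp only [mem_iUnion]
      refine ⟨n, ?_, hn⟩
      rcases Nat.even_or_odd n with h | h
      · exact absurd ((hSE n y hn hE).2 h) (not_lt.2 h1)
      · exact h
  have heven : volume (⋃ n ∈ {n : ℕ | Even n}, S n) =
      volume {y | y ∈ Icc (1 / 2 : ℝ) (2 / 3) ∧ (L y).Finite} := by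
    apply hae
    intro y hE
    constructor
    · intro hy
      simp only [mem_iUnion] at hy
      obtain ⟨n, hn, hy⟩ := hy
      exact ⟨⟨((hSE n y hy hE).2 hn).le, hy.1.2⟩, hfinS n y hy⟩
    · rintro ⟨⟨h0, h1⟩, hf⟩
      obtain ⟨n, hn⟩ := exists_S (y := y) ⟨by linarith, h1⟩ hE hf
      simp only [mem_iUnion]
      refine ⟨n, ?_, hn⟩
      rcases Nat.even_or_odd n with h | h
      · exact h
      · exact absurd ((hSE n y hn hE).1 h) (not_lt.2 h0)
  refine ⟨AllCardinalities.result, fun n => ⟨fun ho => ?_, fun he => ?_⟩, ⟨hodd, heven⟩, ?_,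
    fun n hn ε hε => near_zero hn hε⟩
  · refine E_countable.mono ?_
    rintro y ⟨h1, h2⟩
    by_contra hE
    exact h2 ⟨h1.1.1, (hSE n y h1 hE).1 ho⟩
  · refine E_countable.mono ?_
    rintro y ⟨h1, h2⟩
    by_contra hE
    exact h2 ⟨(hSE n y h1 hE).2 he, h1.1.2⟩
  · intro hnull
    have hfull : ∀ a b : ℝ, 0 ≤ a → b ≤ 2 / 3 →
        volume {y | y ∈ Icc a b ∧ (L y).Finite} = ENNReal.ofReal (b - a) := by
      intro a b ha hb
      rw [← Real.volume_Icc]
      apply measure_congr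
      have h2 := measure_eq_zero_iff_ae_notMem.1 hnull
      filter_upwards [h2] with y hy
      apply propext
      constructor
      · exact fun h => h.1
      · intro h
        refine ⟨h, ?_⟩
        by_contra hf
        exact hy ⟨⟨ha.trans h.1, h.2.trans hb⟩, hf⟩
    rw [hodd, heven, hfull 0 (1 / 2) le_rfl (by norm_num), hfull (1 / 2) (2 / 3) (by norm_num) le_rfl]
    constructor
    · congr 1; norm_num
    · congr 1; norm_num

end Pool.Agent.Results.MP_f54a22_an.ParityLaw
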